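import Pool.Agent.H41.GM.Stm

set_option autoImplicit false

/-! REN: renewal models satisfy the hypotheses `Gaps` (helper22). -/

namespace Pool.Agent.H22.GM

open MeasureTheory Filter Topology ProbabilityTheory Pool.Agent.H41.GM

theorem sc_pos (m : ℕ) : 0 < sc m := by
  unfold sc
  have h : 0 < Real.log ((m : ℝ) + 2) := Real.log_pos (by
    have : (0 : ℝ) ≤ m := Nat.cast_nonneg m
    linarith)
  positivity

/-- the past: the first `j` variables -/
def past {Ω : Type} [mΩ : MeasurableSpace Ω] (X : ℕ → Ω → ℝ) (hX : ∀ i, Measurable (X i)) :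
    Filtration ℕ mΩ where
  seq := fun j => ⨆ i ∈ Set.Iio j, MeasurableSpace.comap (X i) (borel ℝ)
  mono' := fun j k hjk => iSup₂_le fun i hi =>
    le_iSup₂_of_le i (lt_of_lt_of_le (Set.mem_Iio.1 hi) hjk) le_rfl
  le' := fun j => iSup₂_le fun i _ => by
    have h := (hX i).comap_le
    rwa [BorelSpace.measurable_eq (α := ℝ)] at h

/-- **REN** -/
theorem ren (hORD : S_ORD) : S_REN := by
  intro Ω mΩ P _ X q hX hX0 hind hid hint hpos hq0 hq
  obtain ⟨m₀, hm₀⟩ := hq0
  have hmeasX : ∀ i j, i < j → Measurable[past X hX j] (X i) := by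
    intro i j hij
    have h1 : MeasurableSpace.comap (X i) (borel ℝ) ≤ past X hX j :=
      le_iSup₂_of_le (f := fun i (_ : i ∈ Set.Iio j) => MeasurableSpace.comap (X i) (borel ℝ))
        i hij le_rfl
    rw [measurable_iff_comap_le, BorelSpace.measurable_eq (α := ℝ)]
    exact h1
  have hmeasq : ∀ j, Measurable[past X hX j] (q j) := by
    intro j
    induction j with
    | zero =>
      have h1 : q 0 = fun _ => m₀ := funext hm₀
      rw [h1]
      exact measurable_const
    | succ j ih =>
      have h1 : Measurable[past X hX (j + 1)] (q j) := ih.mono ((past X hX).mono (Nat.le_succ j)) le_rfl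
      have h2 : Measurable[past X hX (j + 1)] (X j) := hmeasX j (j + 1) (Nat.lt_succ_self j)
      have h3 : q (j + 1) = fun ω => q j ω + 1 + ⌊X j ω * sc (q j ω)⌋₊ := funext (hq j)
      rw [h3]
      have h4 : Measurable[past X hX (j + 1)] (fun ω => sc (q j ω)) :=
        (measurable_from_nat (f := sc)).comp h1
      exact (h1.add_const 1).add (Nat.measurable_floor.comp (h2.mul h4))
  refine ⟨past X hX, ⟨hmeasq, ?_, ?_, ?_⟩⟩
  · intro ω
    refine strictMono_nat_of_lt_succ fun j => ?_
    have := hq j ω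
    show q j ω < q (j + 1) ω
    omega
  · have hsl := strong_law_ae_real X hint (fun i j hij => hind.indepFun hij) hid
    filter_upwards [hsl] with ω hω
    exact hORD (fun i => X i ω) (∫ ω, X 0 ω ∂P) (fun j => q j ω) (fun i => hX0 i ω) hpos hω
      (fun j => hq j ω)
  · refine ⟨1, 1, one_pos, one_pos, 0, ?_⟩
    intro j m h _ B hB hBq
    have hset : B ∩ {ω | m + h < q (j + 1) ω} = B ∩ (X j ⁻¹' {t | (h : ℝ) / sc m ≤ t}) := by
      ext ω
      simp only [Set.mem_inter_iff, Set.mem_ofPred_eq, Set.mem_preimage]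
      refine and_congr_right fun hω => ?_
      have h1 : q j ω = m := hBq hω
      have h2 := hq j ω
      rw [h1] at h2
      rw [h2, div_le_iff₀ (sc_pos m), ← Nat.le_floor_iff (mul_nonneg (hX0 j ω) (sc_pos m).le)]
      omega
    have hS : MeasurableSet {t : ℝ | (h : ℝ) / sc m ≤ t} := measurableSet_Ici
    have hindep : Indep (⨆ i ∈ Set.Iio j, MeasurableSpace.comap (X i) (borel ℝ))
        (⨆ i ∈ ({j} : Set ℕ), MeasurableSpace.comap (X i) (borel ℝ)) P := by
      refine indep_iSup_of_disjoint (fun i => ?_) ?_ ?_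
      · have h := (hX i).comap_le
        rwa [BorelSpace.measurable_eq (α := ℝ)] at h
      · have h := hind.iIndep
        rw [BorelSpace.measurable_eq (α := ℝ)] at h
        exact h
      · rw [Set.disjoint_singleton_right]
        exact fun h => lt_irrefl _ (Set.mem_Iio.1 h)
    have hpre : MeasurableSet[⨆ i ∈ ({j} : Set ℕ), MeasurableSpace.comap (X i) (borel ℝ)]
        (X j ⁻¹' {t | (h : ℝ) / sc m ≤ t}) := by
      have h1 : MeasurableSpace.comap (X j) (borel ℝ) ≤
          ⨆ i ∈ ({j} : Set ℕ), MeasurableSpace.comap (X i) (borel ℝ) :=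
        le_iSup₂_of_le (f := fun i (_ : i ∈ ({j} : Set ℕ)) => MeasurableSpace.comap (X i) (borel ℝ))
          j rfl le_rfl
      refine h1 _ ⟨_, ?_, rfl⟩
      rw [← BorelSpace.measurable_eq (α := ℝ)]
      exact hS
    have hmul := (Indep_iff _ _ P).1 hindep B (X j ⁻¹' {t | (h : ℝ) / sc m ≤ t}) hB hpre
    have hid' := (hid j).measure_mem_eq hS
    have hreal : P.real (B ∩ {ω | m + h < q (j + 1) ω}) = P.real B * P.real {ω | (h : ℝ) / sc m ≤ X 0 ω} := by
      rw [hset, measureReal_def, hmul, ENNReal.toReal_mul, hid']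
      rfl
    rw [hreal]
    constructor
    · rw [one_mul, mul_comm]
    · rw [one_mul, mul_comm]

end Pool.Agent.H22.GM
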